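import Pool.Agent.H28.VM.Basic

/-!
# Square membrane (MP_71a28e_an): module TESTA
-/

set_option autoImplicit false

open MeasureTheory

namespace Pool.Agent.H74.VM

open Pool.Agent.H28.VM

theorem abs_sin_nat_mul_le (n : ℕ) (x : ℝ) : |Real.sin (n * x)| ≤ n * |Real.sin x| := by
  induction n with
  | zero => simp
  | succ n ih =>
    have h1 : ((n + 1 : ℕ) : ℝ) * x = n * x + x := by push_cast; ring
    rw [h1, Real.sin_add]
    have h2 : |Real.sin (n * x) * Real.cos x| ≤ n * |Real.sin x| := by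
      rw [abs_mul]
      calc _ ≤ |Real.sin (n * x)| * 1 :=
            mul_le_mul_of_nonneg_left (Real.abs_cos_le_one x) (abs_nonneg _)
        _ ≤ _ := by rw [mul_one]; exact ih
    have h3 : |Real.cos (n * x) * Real.sin x| ≤ |Real.sin x| := by
      rw [abs_mul]
      calc _ ≤ 1 * |Real.sin x| :=
            mul_le_mul_of_nonneg_right (Real.abs_cos_le_one _) (abs_nonneg _)
        _ = _ := one_mul _
    have h4 := abs_add_le (Real.sin (n * x) * Real.cos x) (Real.cos (n * x) * Real.sin x)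
    push_cast
    linarith

theorem abs_sin_int_mul_le (a : ℤ) (x : ℝ) : |Real.sin (a * x)| ≤ |(a : ℝ)| * |Real.sin x| := by
  obtain ⟨n, rfl | rfl⟩ := a.eq_nat_or_neg
  · have := abs_sin_nat_mul_le n x
    simpa using this
  · have := abs_sin_nat_mul_le n x
    simpa using this

/-- reflections -/
theorem v_odd1 {c : ℤ × ℤ → ℂ} (hc : Coef c) (t x y : ℝ) : v c t (-x, y) = -v c t (x, y) := by
  unfold v
  rw [← tsum_neg, ← ((Equiv.neg ℤ).prodCongr (Equiv.refl ℤ)).tsum_eq]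
  refine tsum_congr fun k => ?_
  obtain ⟨m, n⟩ := k
  have h1 := hc.odd1 m n
  simp only [Equiv.prodCongr_apply, Prod.map_apply, Equiv.neg_apply, Equiv.refl_apply, h1]
  have h2 : dt (-m, n) (-x, y) = dt (m, n) (x, y) := by unfold dt; push_cast; ring
  have h3 : nm (-m, n) = nm (m, n) := by unfold nm; push_cast; rw [neg_sq]
  rw [h2, h3, neg_mul]

theorem v_odd2 {c : ℤ × ℤ → ℂ} (hc : Coef c) (t x y : ℝ) : v c t (x, -y) = -v c t (x, y) := by
  unfold v
  rw [← tsum_neg, ← ((Equiv.refl ℤ).prodCongr (Equiv.neg ℤ)).tsum_eq]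
  refine tsum_congr fun k => ?_
  obtain ⟨m, n⟩ := k
  have h1 := hc.odd2 m n
  simp only [Equiv.prodCongr_apply, Prod.map_apply, Equiv.neg_apply, Equiv.refl_apply, h1]
  have h2 : dt (m, -n) (x, -y) = dt (m, n) (x, y) := by unfold dt; push_cast; ring
  have h3 : nm (m, -n) = nm (m, n) := by unfold nm; push_cast; rw [neg_sq]
  rw [h2, h3, neg_mul]

theorem u_odd1 {c : ℤ × ℤ → ℂ} (hc : Coef c) (t x y : ℝ) : u c t (-x, y) = -u c t (x, y) := by
  unfold u; rw [v_odd1 hc]; simp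

theorem u_odd2 {c : ℤ × ℤ → ℂ} (hc : Coef c) (t x y : ℝ) : u c t (x, -y) = -u c t (x, y) := by
  unfold u; rw [v_odd2 hc]; simp

theorem continuous_u_time {c : ℤ × ℤ → ℂ} (hc : Coef c) (t : ℝ) :
    Continuous fun z : ℝ × ℝ => u c t z := by
  have h := continuous_u hc.sum
  have h2 : Continuous (Prod.mk t : ℝ × ℝ → ℝ × (ℝ × ℝ)) := Continuous.prodMk_right t
  exact Continuous.comp (g := fun p : ℝ × (ℝ × ℝ) => u c p.1 p.2) (f := Prod.mk t) h h2

theorem continuous_Psi (J : ℕ) (k : ℤ × ℤ) (t : ℝ) (z₀ : ℝ × ℝ) (s : ℝ) :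
    Continuous (Psi J k t z₀ s) := by
  unfold Psi dt
  fun_prop

/-- the four term bracket of one plane wave -/
theorem bracket_wave (a b : ℤ) (r x y : ℝ) :
    ‖ee (r - (a * x + b * y)) - ee (r - (a * -x + b * y)) - ee (r - (a * x + b * -y)) +
      ee (r - (a * -x + b * -y))‖ ≤
      4 * (|(a : ℝ)| * |(b : ℝ)|) * (|Real.sin x| * |Real.sin y|) := by
  have h1 : ∀ w : ℝ, ee (-w) - ee w = -2 * Complex.I * (Real.sin w : ℂ) := by
    intro w
    unfold ee
    rw [Complex.ofReal_sin, Complex.sin]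
    push_cast
    linear_combination (Complex.exp (-(w : ℂ) * Complex.I) -
      Complex.exp ((w : ℂ) * Complex.I)) * Complex.I_sq
  have h2 : ee (r - (a * x + b * y)) - ee (r - (a * -x + b * y)) - ee (r - (a * x + b * -y)) +
      ee (r - (a * -x + b * -y)) =
      ee r * ((ee (-(a * x)) - ee (a * x)) * (ee (-(b * y)) - ee (b * y))) := by
    rw [show r - (a * x + b * y) = r + (-(a * x) + -(b * y)) by ring,
      show r - (a * -x + b * y) = r + ((a * x) + -(b * y)) by ring,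
      show r - (a * x + b * -y) = r + (-(a * x) + (b * y)) by ring,
      show r - (a * -x + b * -y) = r + ((a * x) + (b * y)) by ring]
    simp only [ee_add]
    ring
  rw [h2, norm_mul, norm_ee, one_mul, h1, h1, norm_mul, norm_mul, norm_mul, norm_mul, norm_mul]
  simp only [norm_neg, Complex.norm_ofNat, Complex.norm_I, mul_one, Complex.norm_real,
    Real.norm_eq_abs]
  have h3 := abs_sin_int_mul_le a x
  have h4 := abs_sin_int_mul_le b y
  calc 2 * |Real.sin (a * x)| * (2 * |Real.sin (b * y)|)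
      = 4 * (|Real.sin (a * x)| * |Real.sin (b * y)|) := by ring
    _ ≤ 4 * ((|(a : ℝ)| * |Real.sin x|) * (|(b : ℝ)| * |Real.sin y|)) := by
        gcongr
    _ = _ := by ring

theorem bracket_Psi (J : ℕ) (k : ℤ × ℤ) (t : ℝ) (z₀ : ℝ × ℝ) (s x y : ℝ) (hJ : (J : ℝ) ≤ nm k) :
    ‖Psi J k t z₀ s (x, y) - Psi J k t z₀ s (-x, y) - Psi J k t z₀ s (x, -y) +
      Psi J k t z₀ s (-x, -y)‖ ≤ 16 * nm k ^ 2 * (|Real.sin x| * |Real.sin y|) := by
  have h1 : Psi J k t z₀ s (x, y) - Psi J k t z₀ s (-x, y) - Psi J k t z₀ s (x, -y) +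
      Psi J k t z₀ s (-x, -y) = ∑ j ∈ IJ J ×ˢ IJ J, ((win J j.1 * win J j.2 : ℝ) : ℂ) *
        (ee ((dt j z₀ + nm (k + j) * (s - t)) - (((k.1 + j.1 : ℤ) : ℝ) * x +
            ((k.2 + j.2 : ℤ) : ℝ) * y)) -
          ee ((dt j z₀ + nm (k + j) * (s - t)) - (((k.1 + j.1 : ℤ) : ℝ) * -x +
            ((k.2 + j.2 : ℤ) : ℝ) * y)) -
          ee ((dt j z₀ + nm (k + j) * (s - t)) - (((k.1 + j.1 : ℤ) : ℝ) * x +
            ((k.2 + j.2 : ℤ) : ℝ) * -y)) +
          ee ((dt j z₀ + nm (k + j) * (s - t)) - (((k.1 + j.1 : ℤ) : ℝ) * -x +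
            ((k.2 + j.2 : ℤ) : ℝ) * -y))) := by
    unfold Psi
    rw [← Finset.sum_sub_distrib, ← Finset.sum_sub_distrib, ← Finset.sum_add_distrib]
    refine Finset.sum_congr rfl fun j _ => ?_
    rw [← mul_sub, ← mul_sub, ← mul_add]
    have e : ∀ x y : ℝ, dt j z₀ - dt (k + j) (x, y) + nm (k + j) * (s - t) =
        (dt j z₀ + nm (k + j) * (s - t)) - (((k.1 + j.1 : ℤ) : ℝ) * x +
            ((k.2 + j.2 : ℤ) : ℝ) * y) := by
      intro x y
      unfold dt
      simp only [Prod.fst_add, Prod.snd_add]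
      ring
    rw [e, e, e, e]
  rw [h1]
  have hn := nm_nonneg k
  have h2 : ∀ j ∈ IJ J ×ˢ IJ J, ‖((win J j.1 * win J j.2 : ℝ) : ℂ) *
        (ee ((dt j z₀ + nm (k + j) * (s - t)) - (((k.1 + j.1 : ℤ) : ℝ) * x +
            ((k.2 + j.2 : ℤ) : ℝ) * y)) -
          ee ((dt j z₀ + nm (k + j) * (s - t)) - (((k.1 + j.1 : ℤ) : ℝ) * -x +
            ((k.2 + j.2 : ℤ) : ℝ) * y)) -
          ee ((dt j z₀ + nm (k + j) * (s - t)) - (((k.1 + j.1 : ℤ) : ℝ) * x +
            ((k.2 + j.2 : ℤ) : ℝ) * -y)) +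
          ee ((dt j z₀ + nm (k + j) * (s - t)) - (((k.1 + j.1 : ℤ) : ℝ) * -x +
            ((k.2 + j.2 : ℤ) : ℝ) * -y)))‖ ≤
      (win J j.1 * win J j.2) * (16 * nm k ^ 2 * (|Real.sin x| * |Real.sin y|)) := by
    intro j hj
    rw [Finset.mem_product, mem_IJ', mem_IJ'] at hj
    have hw : 0 ≤ win J j.1 * win J j.2 := mul_nonneg (win_nonneg _ _) (win_nonneg _ _)
    rw [norm_mul, Complex.norm_real, Real.norm_of_nonneg hw]
    refine mul_le_mul_of_nonneg_left ?_ hw
    refine (bracket_wave _ _ _ x y).trans ?_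
    have ha : |((k.1 + j.1 : ℤ) : ℝ)| ≤ 2 * nm k := by
      push_cast
      have h5 := abs_add_le (k.1 : ℝ) (j.1 : ℝ)
      have h6 := abs_fst_le_nm k
      have h7 : |(j.1 : ℝ)| ≤ J := by exact_mod_cast hj.1
      linarith
    have hb : |((k.2 + j.2 : ℤ) : ℝ)| ≤ 2 * nm k := by
      push_cast
      have h5 := abs_add_le (k.2 : ℝ) (j.2 : ℝ)
      have h6 := abs_snd_le_nm k
      have h7 : |(j.2 : ℝ)| ≤ J := by exact_mod_cast hj.2
      linarith
    refine mul_le_mul_of_nonneg_right ?_ (by positivity)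
    calc 4 * (|((k.1 + j.1 : ℤ) : ℝ)| * |((k.2 + j.2 : ℤ) : ℝ)|)
        ≤ 4 * ((2 * nm k) * (2 * nm k)) := by gcongr
      _ = 16 * nm k ^ 2 := by ring
  refine (norm_sum_le_of_le _ h2).trans (le_of_eq ?_)
  rw [← Finset.sum_mul, Finset.sum_product]
  simp only [← Finset.mul_sum, win_sum, mul_one, one_mul]

/-- the two reflections as measurable equivalences -/
def R1 : ℝ × ℝ ≃ᵐ ℝ × ℝ := (MeasurableEquiv.neg ℝ).prodCongr (MeasurableEquiv.refl ℝ)

def R2 : ℝ × ℝ ≃ᵐ ℝ × ℝ := (MeasurableEquiv.refl ℝ).prodCongr (MeasurableEquiv.neg ℝ)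

theorem R1_mp : MeasurePreserving R1 volume volume :=
  (Measure.measurePreserving_neg (volume : Measure ℝ)).prod (MeasurePreserving.id volume)

theorem R2_mp : MeasurePreserving R2 volume volume :=
  (MeasurePreserving.id volume).prod (Measure.measurePreserving_neg (volume : Measure ℝ))

theorem R1_apply (z : ℝ × ℝ) : R1 z = (-z.1, z.2) := rfl
theorem R2_apply (z : ℝ × ℝ) : R2 z = (z.1, -z.2) := rfl

theorem pi_bound : (1.56 : ℝ) < Real.pi / 2 := by
  have := Real.pi_gt_d2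
  norm_num at this ⊢
  linarith

theorem cut_zero {h : ℝ → ℝ} (hh : Cut h) {z : ℝ × ℝ} (hz : 1.56 ≤ |z.1| ∨ 1.56 ≤ |z.2|) :
    h (z.1 ^ 2 + z.2 ^ 2) = 0 := by
  apply hh.zero
  rcases hz with hz | hz
  · have h1 : (1.56 : ℝ) ^ 2 ≤ |z.1| ^ 2 := by gcongr
    rw [sq_abs] at h1
    nlinarith [sq_nonneg z.2]
  · have h1 : (1.56 : ℝ) ^ 2 ≤ |z.2| ^ 2 := by gcongr
    rw [sq_abs] at h1
    nlinarith [sq_nonneg z.1]

theorem cut_zero_box {h : ℝ → ℝ} (hh : Cut h) {z : ℝ × ℝ} (hz : z ∉ Box) :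
    h (z.1 ^ 2 + z.2 ^ 2) = 0 := by
  apply cut_zero hh
  by_contra hcon
  push Not at hcon
  apply hz
  have hp := pi_bound
  obtain ⟨h1, h2⟩ := hcon
  rw [abs_lt] at h1 h2
  refine ⟨⟨?_, ?_⟩, ⟨?_, ?_⟩⟩ <;> linarith

theorem isCompact_Box : IsCompact Box := isCompact_Icc.prod isCompact_Icc

/-- integral of an even compactly supported function -/
theorem integral_even {G : ℝ × ℝ → ℝ} (hG : Integrable G) (he : ∀ x y, G (x, y) = G (|x|, |y|))
    (h0 : ∀ x y, 0 < x → 0 < y → (x, y) ∉ QQ → G (x, y) = 0) :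
    ∫ z, G z = 4 * ∫ z in QQ, G z := by
  have h1 : ∫ z, G z = ∫ x, ∫ y, G (x, y) := by
    rw [← integral_prod _ (by exact hG)]; rfl
  have h2 : ∀ x : ℝ, ∫ y, G (x, y) = 2 * ∫ y in Set.Ioi (0 : ℝ), G (|x|, y) := by
    intro x
    rw [← integral_comp_abs (f := fun y => G (|x|, y))]
    exact integral_congr_ae (Filter.Eventually.of_forall fun y => he x y)
  have h3 : ∫ x, ∫ y, G (x, y) =
      2 * ∫ x in Set.Ioi (0 : ℝ), 2 * ∫ y in Set.Ioi (0 : ℝ), G (x, y) := by
    rw [← integral_comp_abs (f := fun x => 2 * ∫ y in Set.Ioi (0 : ℝ), G (x, y))]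
    exact integral_congr_ae (Filter.Eventually.of_forall fun x => h2 x)
  have h4 : ∫ x in Set.Ioi (0 : ℝ), ∫ y in Set.Ioi (0 : ℝ), G (x, y) =
      ∫ z in Set.Ioi (0 : ℝ) ×ˢ Set.Ioi (0 : ℝ), G z :=
    (setIntegral_prod (μ := volume) (ν := volume) G (by exact hG.integrableOn)).symm
  have h5 : ∫ z in Set.Ioi (0 : ℝ) ×ˢ Set.Ioi (0 : ℝ), G z = ∫ z in QQ, G z := by
    apply setIntegral_eq_of_subset_of_forall_sdiff_eq_zero
      (measurableSet_Ioi.prod measurableSet_Ioi)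
    · rintro ⟨x, y⟩ ⟨h1, h2⟩
      exact ⟨h1.1, h2.1⟩
    · rintro ⟨x, y⟩ ⟨⟨h1, h2⟩, h3⟩
      exact h0 x y h1 h2 h3
  rw [h1, h3, integral_const_mul, h4, h5]
  ring

/-- **TESTA** -/
theorem testA : T_testA := by
  intro h hh c hc s hpos J k t z₀ hJ
  have hcont_h : Continuous h := hh.smooth.continuous
  have hcu := continuous_u_time hc s
  have hcP := continuous_Psi J k t z₀ s
  set F : ℝ × ℝ → ℂ := fun z => (h (z.1 ^ 2 + z.2 ^ 2) : ℂ) * Psi J k t z₀ s z * (u c s z : ℂ)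
    with hF
  have hFc : Continuous F := by
    rw [hF]
    refine (Continuous.mul ?_ hcP).mul ?_
    · exact Complex.continuous_ofReal.comp (hcont_h.comp (by fun_prop))
    · exact Complex.continuous_ofReal.comp hcu
  have hF0 : ∀ z, z ∉ Box → F z = 0 := by
    intro z hz
    simp only [hF, cut_zero_box hh hz, Complex.ofReal_zero, zero_mul]
  have hFs : HasCompactSupport F := HasCompactSupport.intro isCompact_Box (fun z hz => hF0 z hz)
  have hFi : Integrable F := hFc.integrable_of_hasCompactSupport hFs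
  have hbox : ∫ z in Box, F z = ∫ z, F z :=
    setIntegral_eq_integral_of_forall_compl_eq_zero (fun z hz => hF0 z hz)
  -- the majorant
  set G : ℝ × ℝ → ℝ := fun z =>
    h (z.1 ^ 2 + z.2 ^ 2) * |u c s z| * (|Real.sin z.1| * |Real.sin z.2|) with hG
  have hGc : Continuous G := by
    rw [hG]
    refine (Continuous.mul ?_ ?_).mul ?_
    · exact hcont_h.comp (by fun_prop)
    · exact hcu.abs
    · exact ((Real.continuous_sin.comp continuous_fst).abs).mul
        ((Real.continuous_sin.comp continuous_snd).abs)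
  have hG0 : ∀ z, z ∉ Box → G z = 0 := by
    intro z hz
    simp only [hG, cut_zero_box hh hz, zero_mul]
  have hGi : Integrable G :=
    hGc.integrable_of_hasCompactSupport (HasCompactSupport.intro isCompact_Box hG0)
  have hsym : ∫ z, F z = (1 / 4 : ℂ) * ∫ z, (F z + F (R1 z) + F (R2 z) + F (R1 (R2 z))) := by
    have i1 : Integrable (fun z => F (R1 z)) := by
      exact (R1_mp.integrable_comp_emb R1.measurableEmbedding).mpr hFi
    have i2 : Integrable (fun z => F (R2 z)) := by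
      exact (R2_mp.integrable_comp_emb R2.measurableEmbedding).mpr hFi
    have i3 : Integrable (fun z => F (R1 (R2 z))) := by
      exact (R2_mp.integrable_comp_emb R2.measurableEmbedding).mpr i1
    have e1 : ∫ z, F (R1 z) = ∫ z, F z := R1_mp.integral_comp' F
    have e2 : ∫ z, F (R2 z) = ∫ z, F z := R2_mp.integral_comp' F
    have e3 : ∫ z, F (R1 (R2 z)) = ∫ z, F z := by
      rw [R2_mp.integral_comp' (fun z => F (R1 z)), e1]
    rw [integral_add (by exact (hFi.add i1).add i2) i3, integral_add (by exact hFi.add i1) i2,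
      integral_add hFi i1, e1, e2, e3]
    ring
  have hptw : ∀ z, ‖F z + F (R1 z) + F (R2 z) + F (R1 (R2 z))‖ ≤ 16 * nm k ^ 2 * G z := by
    rintro ⟨x, y⟩
    have e : F (x, y) + F (R1 (x, y)) + F (R2 (x, y)) + F (R1 (R2 (x, y))) =
        (h (x ^ 2 + y ^ 2) : ℂ) * (u c s (x, y) : ℂ) *
          (Psi J k t z₀ s (x, y) - Psi J k t z₀ s (-x, y) - Psi J k t z₀ s (x, -y) +
            Psi J k t z₀ s (-x, -y)) := by
      simp only [hF, R1_apply, R2_apply, neg_sq, u_odd1 hc, u_odd2 hc]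
      push_cast
      ring
    rw [e, norm_mul, norm_mul, Complex.norm_real, Complex.norm_real, Real.norm_eq_abs,
      Real.norm_eq_abs, abs_of_nonneg (hh.nonneg _)]
    have hb := bracket_Psi J k t z₀ s x y hJ
    calc h (x ^ 2 + y ^ 2) * |u c s (x, y)| * _
        ≤ h (x ^ 2 + y ^ 2) * |u c s (x, y)| *
          (16 * nm k ^ 2 * (|Real.sin x| * |Real.sin y|)) :=
          mul_le_mul_of_nonneg_left hb (mul_nonneg (hh.nonneg _) (abs_nonneg _))
      _ = _ := by simp only [hG]; ring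
  have hle : ‖∫ z, F z‖ ≤ 4 * nm k ^ 2 * ∫ z, G z := by
    rw [hsym, norm_mul]
    have h1 : ‖∫ z, (F z + F (R1 z) + F (R2 z) + F (R1 (R2 z)))‖ ≤
        ∫ z, 16 * nm k ^ 2 * G z :=
      norm_integral_le_of_norm_le (hGi.const_mul _) (Filter.Eventually.of_forall hptw)
    rw [integral_const_mul] at h1
    have h2 : ‖(1 / 4 : ℂ)‖ = 1 / 4 := by norm_num
    rw [h2]
    linarith
  have hev : ∫ z, G z = 4 * ∫ z in QQ, G z := by
    apply integral_even hGi
    · intro x y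
      have hu : |u c s (x, y)| = |u c s (|x|, |y|)| := by
        rcases abs_choice x with hx | hx <;> rcases abs_choice y with hy | hy <;>
          rw [hx, hy] <;> simp only [u_odd1 hc, u_odd2 hc, abs_neg]
      have hs : ∀ x : ℝ, |Real.sin x| = |Real.sin (|x|)| := by
        intro x
        rcases abs_choice x with hx | hx <;> rw [hx]
        rw [Real.sin_neg, abs_neg]
      simp only [hG, sq_abs]
      rw [hu, hs x, hs y]
    · intro x y hx hy hxy
      have hp := pi_bound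
      have : h (x ^ 2 + y ^ 2) = 0 := by
        apply cut_zero hh (z := (x, y))
        by_contra hcon
        push Not at hcon
        apply hxy
        obtain ⟨h1, h2⟩ := hcon
        rw [abs_lt] at h1 h2
        refine ⟨⟨hx, ?_⟩, ⟨hy, ?_⟩⟩
        · exact lt_trans h1.2 hp
        · exact lt_trans h2.2 hp
      simp only [hG, this, zero_mul]
  have hmm : ∫ z in QQ, G z = mm h c s := by
    unfold mm
    refine setIntegral_congr_fun (measurableSet_Ioo.prod measurableSet_Ioo) ?_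
    rintro ⟨x, y⟩ hz
    have h1 : 0 ≤ u c s (x, y) := hpos _ hz
    obtain ⟨⟨hx1, hx2⟩, ⟨hy1, hy2⟩⟩ := hz
    have hpi := Real.pi_pos
    have h2 : 0 ≤ Real.sin x := Real.sin_nonneg_of_nonneg_of_le_pi hx1.le (by simp at hx2; linarith)
    have h3 : 0 ≤ Real.sin y := Real.sin_nonneg_of_nonneg_of_le_pi hy1.le (by simp at hy2; linarith)
    simp only [hG, abs_of_nonneg h1, abs_of_nonneg h2, abs_of_nonneg h3]
    ring
  rw [hbox]
  rw [hev, hmm] at hle
  linarith

end Pool.Agent.H74.VM
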